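import Pool.Agent.Helper48_CON.DIND
import Pool.Agent.Helper97_CON.Ker

/-! Squad CON (MP_6d18f4_al), module B_CMP: the rank drops by at most 2 on the orthogonal
complement of a hyperbolic pair. -/

noncomputable section

namespace Pool.Agent.CON.H99

open Pool.Agent.CON

theorem b_cmp : B_CMP := by
  intro A _ b q Y Y' p k u w hb hp hu hw ⟨hqu, hqw, huw⟩ hY' ⟨c, hcY, hind⟩
  have hadd : ∀ x y z, b x (y + z) = b x y + b x z := fun x y z => by
    rw [hb.symm x (y + z), hb.add_left, hb.symm y x, hb.symm z x]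
  have hsm : ∀ (t : ℤ) x y, b (t • x) y = t * b x y := fun t x y => by
    have := map_zsmul (H97.bl hb y) t x
    rw [smul_eq_mul] at this
    exact this
  have hsmr : ∀ (t : ℤ) x y, b x (t • y) = t * b x y := fun t x y => by
    rw [hb.symm, hsm, hb.symm]
  have huu : (p : ℤ) ∣ b u u := by rw [hb.self]; exact Dvd.dvd.mul_left hqu _
  have hww : (p : ℤ) ∣ b w w := by rw [hb.self]; exact Dvd.dvd.mul_left hqw _
  have hwu : (p : ℤ) ∣ b w u - 1 := by rw [hb.symm]; exact huw
  obtain ⟨z, hz1, hz2, hz3⟩ := H48.ker_ind p k hp (fun i => b (c i) u) (fun i => b (c i) w)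
  have hmu : ∀ l, (p : ℤ) ∣ b (∑ i, z l i • c i) u := fun l => by
    rw [H97.bl_sum hb]; exact hz1 l
  have hmw : ∀ l, (p : ℤ) ∣ b (∑ i, z l i • c i) w := fun l => by
    rw [H97.bl_sum hb]; exact hz2 l
  refine ⟨fun l => ∑ i, z l i • c i, fun l => ?_, fun t ht => ?_⟩
  · rw [hY']
    exact ⟨AddSubgroup.sum_mem _ fun i _ => AddSubgroup.zsmul_mem _ (hcY i) _, hmu l, hmw l⟩
  apply hz3 t
  have hsum : (∑ l, t l • (∑ i, z l i • c i)) = ∑ i, (∑ l, t l * z l i) • c i := by
    simp only [Finset.smul_sum, Finset.sum_smul, smul_smul]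
    rw [Finset.sum_comm]
  have hXu : (p : ℤ) ∣ b (∑ i, (∑ l, t l * z l i) • c i) u := by
    rw [← hsum, H97.bl_sum hb]
    exact Finset.dvd_sum fun l _ => Dvd.dvd.mul_left (hmu l) _
  have hXw : (p : ℤ) ∣ b (∑ i, (∑ l, t l * z l i) • c i) w := by
    rw [← hsum, H97.bl_sum hb]
    exact Finset.dvd_sum fun l _ => Dvd.dvd.mul_left (hmw l) _
  refine hind (fun i => ∑ l, t l * z l i) fun y hy => ?_
  -- the component of y orthogonal to u and w
  have hy' : y + ((-b y w) • u + (-b y u) • w) ∈ Y' := by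
    rw [hY']
    refine ⟨AddSubgroup.add_mem _ hy (AddSubgroup.add_mem _ (AddSubgroup.zsmul_mem _ hu _)
      (AddSubgroup.zsmul_mem _ hw _)), ?_, ?_⟩
    · rw [hb.add_left, hb.add_left, hsm, hsm]
      have : b y u + (-b y w * b u u + -b y u * b w u) =
        -(b y w * b u u) - b y u * (b w u - 1) := by ring
      rw [this]
      exact dvd_sub (dvd_neg.mpr (Dvd.dvd.mul_left huu _)) (Dvd.dvd.mul_left hwu _)
    · rw [hb.add_left, hb.add_left, hsm, hsm]
      have : b y w + (-b y w * b u w + -b y u * b w w) =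
        -(b y u * b w w) - b y w * (b u w - 1) := by ring
      rw [this]
      exact dvd_sub (dvd_neg.mpr (Dvd.dvd.mul_left hww _)) (Dvd.dvd.mul_left huw _)
  have h1 := ht _ hy'
  rw [hsum, hadd, hadd, hsmr, hsmr] at h1
  have h2 : (p : ℤ) ∣ (-b y w * b (∑ i, (∑ l, t l * z l i) • c i) u +
      -b y u * b (∑ i, (∑ l, t l * z l i) • c i) w) :=
    dvd_add (Dvd.dvd.mul_left hXu _) (Dvd.dvd.mul_left hXw _)
  exact (dvd_add_left h2).mp h1

end Pool.Agent.CON.H99

end
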