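import Pool.Agent.Helper25_CON.PDLem

/-!
Squad CON, module E_VAL: the values of the form on the span of an irreducible component
-/

set_option autoImplicit false

noncomputable section

namespace Pool.Agent.CON.H99

open Pool.Agent.H25Cong Pool.Agent.CON

theorem e_val : E_VAL := by
  intro M _ b C s hb hI x hx
  have h1 : ∀ x ∈ AddSubgroup.closure C, ∀ a ∈ C, s ∣ b x a := by
    intro x hx a ha
    induction hx using AddSubgroup.closure_induction with
    | mem y hy => exact hI.dvd y hy a ha
    | zero => rw [hb.zero_left]; exact dvd_zero _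
    | add y z _ _ hy hz => rw [hb.add_left]; exact dvd_add hy hz
    | neg y _ hy => rw [hb.neg_left]; exact (dvd_neg).mpr hy
  have h2 : ∀ x ∈ AddSubgroup.closure C, ∀ y ∈ AddSubgroup.closure C, s ∣ b x y := by
    intro x hx y hy
    induction hy using AddSubgroup.closure_induction with
    | mem y hy => exact h1 x hx y hy
    | zero => rw [hb.zero_right]; exact dvd_zero _
    | add y z _ _ hy hz => rw [hb.add_right]; exact dvd_add hy hz
    | neg y _ hy => rw [hb.neg_right]; exact (dvd_neg).mpr hy
  refine ⟨h2 x hx, ?_⟩
  induction hx using AddSubgroup.closure_induction with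
  | mem y hy => rw [hI.norm y hy]
  | zero => rw [hb.zero_left]; exact dvd_zero _
  | add y z hy hz ihy ihz =>
    have e : b (y + z) (y + z) = b y y + b z z + 2 * b y z := by
      rw [hb.add_left, hb.add_right, hb.add_right, hb.symm z y]; ring
    rw [e]
    exact dvd_add (dvd_add ihy ihz) (mul_dvd_mul_left 2 (h2 y hy z hz))
  | neg y _ hy =>
    have e : b (-y) (-y) = b y y := by rw [hb.neg_left, hb.neg_right, neg_neg]
    rw [e]; exact hy

end Pool.Agent.CON.H99
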